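import Pool.Agent.W2helper50.CZ.Stampfli

/-!
# MP_16d611_an: a circle in the scaled `q`-numerical range
-/

set_option autoImplicit false

namespace Pool.Agent.W2helper50.CZ

open ComplexConjugate

variable {E : Type*} [NormedAddCommGroup E] [InnerProductSpace ℂ E] [FiniteDimensional ℂ E]

lemma exists_orth (hE : 2 ≤ Module.finrank ℂ E) (x : E) : ∃ y : E, ‖y‖ = 1 ∧ inner ℂ x y = (0 : ℂ) := by
  have h1 := Submodule.finrank_add_finrank_orthogonal (Submodule.span ℂ {x})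
  have h2 : Module.finrank ℂ (Submodule.span ℂ {x}) ≤ 1 :=
    (finrank_span_le_card ({x} : Set E)).trans (by simp)
  have h3 : 0 < Module.finrank ℂ (Submodule.span ℂ {x})ᗮ := by omega
  have h4 : Nontrivial (Submodule.span ℂ {x})ᗮ := Module.nontrivial_of_finrank_pos h3
  obtain ⟨⟨y, hy⟩, hy0⟩ := exists_ne (0 : (Submodule.span ℂ {x})ᗮ)
  have hy1 : y ≠ 0 := fun h => hy0 (Subtype.ext h)
  have hxy : inner ℂ x y = (0 : ℂ) := (Submodule.mem_orthogonal_singleton_iff_inner_right).1 hy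
  refine ⟨((‖y‖⁻¹ : ℝ) : ℂ) • y, ?_, ?_⟩
  · rw [norm_smul, Complex.norm_real, norm_inv, norm_norm]
    exact inv_mul_cancel₀ (norm_ne_zero_iff.2 hy1)
  · rw [inner_smul_right, hxy, mul_zero]

/-- the circle -/
theorem circle_mem (A : E →L[ℂ] E) (hE : 2 ≤ Module.finrank ℂ E) (q : ℂ) (h0 : q ≠ 0) (h1 : ‖q‖ ≤ 1) :
    ∃ a : ℂ, ∀ z : ℂ, ‖z - a‖ = Real.sqrt (1 - ‖q‖ ^ 2) / ‖q‖ * ‖A - a • (1 : E →L[ℂ] E)‖ →
      ∃ x y : E, ‖x‖ = 1 ∧ ‖y‖ = 1 ∧ inner ℂ y x = q ∧ z = inner ℂ y (A x) / q := by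
  have hnt : Nontrivial E := Module.nontrivial_of_finrank_pos (R := ℂ) (by omega)
  obtain ⟨a, x, hx1, hx2, hx3⟩ := stampfli A
  refine ⟨a, fun z hz => ?_⟩
  set B : E →L[ℂ] E := A - a • (1 : E →L[ℂ] E) with hB
  have hq0 : 0 < ‖q‖ := norm_pos_iff.2 h0
  -- a unit vector in the direction of `B x`
  obtain ⟨y, hy1, hy2, hy3⟩ : ∃ y : E, ‖y‖ = 1 ∧ inner ℂ x y = (0 : ℂ) ∧ B x = ((‖B‖ : ℝ) : ℂ) • y := by
    by_cases hR : ‖B‖ = 0
    · obtain ⟨y, hy1, hy2⟩ := exists_orth hE x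
      refine ⟨y, hy1, hy2, ?_⟩
      rw [hR] at hx2 ⊢
      rw [norm_eq_zero.1 hx2]
      simp
    · refine ⟨((‖B‖⁻¹ : ℝ) : ℂ) • B x, ?_, ?_, ?_⟩
      · rw [norm_smul, hx2, Complex.norm_real, norm_inv, norm_norm]
        exact inv_mul_cancel₀ hR
      · rw [inner_smul_right, hx3, mul_zero]
      · rw [smul_smul, ← Complex.ofReal_mul, mul_inv_cancel₀ hR, Complex.ofReal_one, one_smul]
  set t : ℝ := Real.sqrt (1 - ‖q‖ ^ 2) with ht
  have ht0 : 0 ≤ t := Real.sqrt_nonneg _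
  have ht2 : t ^ 2 = 1 - ‖q‖ ^ 2 := by
    rw [ht, Real.sq_sqrt]
    nlinarith [norm_nonneg q]
  -- the phase
  obtain ⟨c, hc1, hc2⟩ : ∃ c : ℂ, ‖c‖ = 1 ∧ (z - a) * q = ((t * ‖B‖ : ℝ) : ℂ) * c := by
    by_cases hR : t * ‖B‖ = 0
    · refine ⟨1, by simp, ?_⟩
      have h2 : z - a = 0 := by
        rw [← norm_eq_zero, hz, div_mul_eq_mul_div, hR, zero_div]
      rw [h2, hR]
      simp
    · refine ⟨(z - a) * q / ((t * ‖B‖ : ℝ) : ℂ), ?_, ?_⟩
      · rw [norm_div, norm_mul, hz, Complex.norm_real, Real.norm_of_nonneg (by positivity)]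
        have : t ≠ 0 := left_ne_zero_of_mul hR
        have h5 : ‖B‖ ≠ 0 := right_ne_zero_of_mul hR
        field_simp
      · rw [mul_div_cancel₀]
        exact_mod_cast hR
  have hyx : inner ℂ y x = (0 : ℂ) := by
    rw [← inner_conj_symm, hy2, map_zero]
  have hxx : inner ℂ x x = (1 : ℂ) := by
    rw [inner_self_eq_norm_sq_to_K, hx1]; simp
  have hyy : inner ℂ y y = (1 : ℂ) := by
    rw [inner_self_eq_norm_sq_to_K, hy1]; simp
  have hcc : conj c * c = 1 := by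
    rw [Complex.conj_mul', hc1]; simp
  refine ⟨x, conj q • x + ((t : ℂ) * conj c) • y, hx1, ?_, ?_, ?_⟩
  · have h2 : inner ℂ (conj q • x + ((t : ℂ) * conj c) • y) (conj q • x + ((t : ℂ) * conj c) • y) =
        (1 : ℂ) := by
      simp only [inner_add_left, inner_add_right, inner_smul_left, inner_smul_right, hxx, hyy, hyx,
        hy2, map_mul, Complex.conj_conj, Complex.conj_ofReal]
      have h3 : q * conj q = ((‖q‖ ^ 2 : ℝ) : ℂ) := by
        rw [Complex.mul_conj']; push_cast; rfl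
      have h4 : ((t : ℝ) : ℂ) ^ 2 = ((1 - ‖q‖ ^ 2 : ℝ) : ℂ) := by
        rw [← ht2]; push_cast; rfl
      have h5 : (t : ℂ) * c * ((t : ℂ) * conj c) = (t : ℂ) ^ 2 * (conj c * c) := by ring
      rw [hcc, mul_one, h4] at h5
      push_cast at h5 h3 ⊢
      linear_combination h3 + h5
    rw [inner_self_eq_norm_sq_to_K] at h2
    have h3 : ‖conj q • x + ((t : ℂ) * conj c) • y‖ ^ 2 = 1 := by
      apply Complex.ofReal_injective
      rw [Complex.ofReal_one, ← h2]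
      push_cast
      rfl
    exact (pow_eq_one_iff_of_nonneg (norm_nonneg _) two_ne_zero).1 h3
  · rw [inner_add_left, inner_smul_left, inner_smul_left, hxx, hyx]
    simp
  · have hA : A x = a • x + ((‖B‖ : ℝ) : ℂ) • y := by
      rw [← hy3, hB]
      simp
    rw [hA, eq_div_iff h0]
    simp only [inner_add_left, inner_add_right, inner_smul_left, inner_smul_right, hxx, hyy, hyx,
        hy2, map_mul, Complex.conj_conj, Complex.conj_ofReal]
    push_cast at hc2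
    linear_combination hc2
end Pool.Agent.W2helper50.CZ
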