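import Mathlib
import Pool.Agent.Helper774.Geometry

/-!
# MP_16d611_an: Stampfli's theorem in finite dimension

For every operator `A` on a finite dimensional Hilbert space there are a scalar `a` and a unit vector `x`
with `‖(A - a) x‖ = ‖A - a‖` and `(A - a) x ⊥ x`.
-/

set_option autoImplicit false

namespace Pool.Agent.W2helper50.CZ

open Filter Topology Metric ComplexConjugate

variable {E : Type*} [NormedAddCommGroup E] [InnerProductSpace ℂ E] [FiniteDimensional ℂ E]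

/-- the operator norm is attained -/
lemma attain [Nontrivial E] (T : E →L[ℂ] E) : ∃ x : E, ‖x‖ = 1 ∧ ‖T x‖ = ‖T‖ := by
  have : ProperSpace E := FiniteDimensional.proper ℂ E
  have hc : IsCompact (sphere (0 : E) 1) := isCompact_sphere 0 1
  have hne : (sphere (0 : E) 1).Nonempty := by
    obtain ⟨v, hv⟩ := exists_ne (0 : E)
    refine ⟨((‖v‖⁻¹ : ℝ) : ℂ) • v, ?_⟩
    rw [mem_sphere_zero_iff_norm, norm_smul, Complex.norm_real, norm_inv, norm_norm]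
    exact inv_mul_cancel₀ (norm_ne_zero_iff.2 hv)
  obtain ⟨x, hx, hmax⟩ := hc.exists_isMaxOn hne (f := fun y => ‖T y‖) (by fun_prop)
  have hx1 : ‖x‖ = 1 := by simpa using hx
  refine ⟨x, hx1, le_antisymm ?_ ?_⟩
  · have := T.le_opNorm x
    rwa [hx1, mul_one] at this
  · apply T.opNorm_le_bound (norm_nonneg _)
    intro y
    by_cases hy : y = 0
    · simp [hy]
    have hy0 : ‖y‖ ≠ 0 := norm_ne_zero_iff.2 hy
    have h1 : ((‖y‖⁻¹ : ℝ) : ℂ) • y ∈ sphere (0 : E) 1 := by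
      rw [mem_sphere_zero_iff_norm, norm_smul, Complex.norm_real, norm_inv, norm_norm]
      exact inv_mul_cancel₀ hy0
    have h2 : ‖T (((‖y‖⁻¹ : ℝ) : ℂ) • y)‖ ≤ ‖T x‖ := hmax h1
    rw [map_smul, norm_smul, Complex.norm_real, norm_inv, norm_norm] at h2
    have h3 : 0 < ‖y‖ := norm_pos_iff.2 hy
    rw [inv_mul_le_iff₀ h3] at h2
    linarith [mul_comm ‖y‖ ‖T x‖]

/-- the vectors at which the norm `R` of `B` is attained -/
noncomputable def KK (B : E →L[ℂ] E) : Submodule ℂ E :=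
  LinearMap.ker ((B.adjoint ∘L B - ((‖B‖ ^ 2 : ℝ) : ℂ) • (1 : E →L[ℂ] E) : E →L[ℂ] E) : E →ₗ[ℂ] E)

lemma mem_KK {B : E →L[ℂ] E} {x : E} :
    x ∈ KK B ↔ B.adjoint (B x) = ((‖B‖ ^ 2 : ℝ) : ℂ) • x := by
  unfold KK
  rw [LinearMap.mem_ker]
  simp only [ContinuousLinearMap.coe_coe, ContinuousLinearMap.sub_apply, ContinuousLinearMap.comp_apply,
    ContinuousLinearMap.smul_apply, ContinuousLinearMap.one_apply]
  rw [sub_eq_zero]

lemma KK_norm {B : E →L[ℂ] E} {x : E} (hx : x ∈ KK B) (h1 : ‖x‖ = 1) : ‖B x‖ = ‖B‖ := by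
  rw [mem_KK] at hx
  have h2 : (inner ℂ (B x) (B x) : ℂ) = inner ℂ (B.adjoint (B x)) x := by
    rw [ContinuousLinearMap.adjoint_inner_left]
  rw [hx, inner_smul_left, inner_self_eq_norm_sq_to_K, inner_self_eq_norm_sq_to_K, h1] at h2
  simp only [Complex.conj_ofReal] at h2
  have h3 : ‖B x‖ ^ 2 = ‖B‖ ^ 2 := by
    have : ((‖B x‖ ^ 2 : ℝ) : ℂ) = ((‖B‖ ^ 2 : ℝ) : ℂ) := by
      push_cast
      push_cast at h2
      simpa using h2
    exact_mod_cast this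
  exact (sq_eq_sq₀ (norm_nonneg _) (norm_nonneg _)).1 h3

lemma KK_of_norm {B : E →L[ℂ] E} {x : E} (h1 : ‖x‖ = 1) (h2 : ‖B x‖ = ‖B‖) : x ∈ KK B := by
  rw [mem_KK, ← sub_eq_zero, ← norm_eq_zero]
  have h3 : ‖B.adjoint (B x) - ((‖B‖ ^ 2 : ℝ) : ℂ) • x‖ ^ 2 ≤ 0 := by
    rw [@norm_sub_sq ℂ]
    have e1 : RCLike.re (inner ℂ (B.adjoint (B x)) (((‖B‖ ^ 2 : ℝ) : ℂ) • x) : ℂ) = ‖B‖ ^ 2 * ‖B‖ ^ 2 := by
      have e0 : (inner ℂ (B x) (B x) : ℂ) = ((‖B‖ ^ 2 : ℝ) : ℂ) := by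
        rw [inner_self_eq_norm_sq_to_K, h2]; push_cast; rfl
      rw [inner_smul_right, ContinuousLinearMap.adjoint_inner_left, e0, ← Complex.ofReal_mul]
      exact Complex.ofReal_re _
    have e2 : ‖B.adjoint (B x)‖ ≤ ‖B‖ * ‖B‖ := by
      have h := B.adjoint.le_opNorm (B x)
      rwa [LinearIsometryEquiv.norm_map, h2] at h
    have e3 : ‖((‖B‖ ^ 2 : ℝ) : ℂ) • x‖ = ‖B‖ ^ 2 := by
      rw [norm_smul, h1, mul_one, Complex.norm_real, Real.norm_of_nonneg (by positivity)]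
    rw [e1, e3]
    have e4 : ‖B.adjoint (B x)‖ ^ 2 ≤ (‖B‖ * ‖B‖) ^ 2 := pow_le_pow_left₀ (norm_nonneg _) e2 2
    nlinarith
  have h4 : ‖B.adjoint (B x) - ((‖B‖ ^ 2 : ℝ) : ℂ) • x‖ ^ 2 = 0 := le_antisymm h3 (sq_nonneg _)
  exact pow_eq_zero_iff (two_ne_zero) |>.1 h4

/-- the numerical range of the compression of `B` to a subspace -/
def WK (B : E →L[ℂ] E) (K : Submodule ℂ E) : Set ℂ := {w | ∃ x ∈ K, ‖x‖ = 1 ∧ inner ℂ x (B x) = w}

lemma WK_convex (B : E →L[ℂ] E) (K : Submodule ℂ E) : Convex ℝ (WK B K) := by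
  classical
  let b := stdOrthonormalBasis ℂ K
  let M : Matrix (Fin (Module.finrank ℂ K)) (Fin (Module.finrank ℂ K)) ℂ :=
    fun i j => inner ℂ ((b i : K) : E) (B ((b j : K) : E))
  have key : WK B K = Pool.Agent.Helper774.MW M := by
    have e : ∀ v : Fin (Module.finrank ℂ K) → ℂ,
        (inner ℂ ((∑ i, v i • b i : K) : E) (B ((∑ i, v i • b i : K) : E)) : ℂ) =
          dotProduct (star v) (Matrix.mulVec M v) := by
      intro v
      rw [Submodule.coe_sum, map_sum, sum_inner]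
      simp only [dotProduct, Matrix.mulVec, Pi.star_apply, Finset.mul_sum, inner_sum]
      refine Finset.sum_congr rfl fun i _ => Finset.sum_congr rfl fun j _ => ?_
      rw [Submodule.coe_smul, Submodule.coe_smul, map_smul, inner_smul_left, inner_smul_right]
      simp only [M, RCLike.star_def]
      ring
    have e' : ∀ v : Fin (Module.finrank ℂ K) → ℂ,
        ((‖((∑ i, v i • b i : K) : E)‖ ^ 2 : ℝ) : ℂ) = dotProduct (star v) v := by
      intro v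
      have h1 : (inner ℂ (∑ i, v i • b i : K) (∑ i, v i • b i : K) : ℂ) = dotProduct (star v) v := by
        rw [b.orthonormal.inner_sum]
        simp only [dotProduct, Pi.star_apply, RCLike.star_def]
      rw [← h1, inner_self_eq_norm_sq_to_K]
      simp
    ext w
    constructor
    · rintro ⟨x, hx, hx1, hw⟩
      let v : Fin (Module.finrank ℂ K) → ℂ := fun i => b.repr ⟨x, hx⟩ i
      have hv : (∑ i, v i • b i : K) = ⟨x, hx⟩ := b.sum_repr ⟨x, hx⟩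
      refine ⟨v, ?_, ?_⟩
      · rw [← e' v, hv]
        simp [hx1]
      · rw [← e v, hv, ← hw]
    · rintro ⟨v, hv1, hv2⟩
      refine ⟨((∑ i, v i • b i : K) : E), Submodule.coe_mem _, ?_, ?_⟩
      · have h1 := e' v
        rw [hv1] at h1
        have h2 : ‖((∑ i, v i • b i : K) : E)‖ ^ 2 = 1 := by exact_mod_cast h1
        exact (pow_eq_one_iff_of_nonneg (norm_nonneg _) two_ne_zero).1 h2
      · rw [e v, hv2]
  rw [key]
  exact Pool.Agent.Helper774.MW_convex M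

lemma exists_min (A : E →L[ℂ] E) [Nontrivial E] :
    ∃ a : ℂ, ∀ b : ℂ, ‖A - a • (1 : E →L[ℂ] E)‖ ≤ ‖A - b • (1 : E →L[ℂ] E)‖ := by
  have hcont : Continuous fun a : ℂ => ‖A - a • (1 : E →L[ℂ] E)‖ := by fun_prop
  have hlim : Tendsto (fun a : ℂ => ‖A - a • (1 : E →L[ℂ] E)‖) (cocompact ℂ) atTop := by
    have h1 : Tendsto (fun a : ℂ => ‖a‖ - ‖A‖) (cocompact ℂ) atTop :=
      tendsto_atTop_add_const_right _ _ tendsto_norm_cocompact_atTop
    refine tendsto_atTop_mono (fun a => ?_) h1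
    have h2 : ‖a • (1 : E →L[ℂ] E)‖ = ‖a‖ := by
      rw [norm_smul, norm_one, mul_one]
    have h3 := norm_sub_norm_le (a • (1 : E →L[ℂ] E)) A
    rw [h2, norm_sub_rev] at h3
    exact h3
  exact hcont.exists_forall_le hlim

/-- Stampfli's theorem -/
theorem stampfli [Nontrivial E] (A : E →L[ℂ] E) :
    ∃ (a : ℂ) (x : E), ‖x‖ = 1 ∧ ‖(A - a • (1 : E →L[ℂ] E)) x‖ = ‖A - a • (1 : E →L[ℂ] E)‖ ∧
      inner ℂ x ((A - a • (1 : E →L[ℂ] E)) x) = (0 : ℂ) := by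
  have : ProperSpace E := FiniteDimensional.proper ℂ E
  obtain ⟨a, ha⟩ := exists_min A
  refine ⟨a, ?_⟩
  set B : E →L[ℂ] E := A - a • (1 : E →L[ℂ] E) with hB
  have hmin : ∀ c : ℂ, ‖B‖ ≤ ‖B - c • (1 : E →L[ℂ] E)‖ := by
    intro c
    have h := ha (a + c)
    rw [add_smul, ← sub_sub] at h
    exact h
  by_contra hcon
  push Not at hcon
  have h0 : (0 : ℂ) ∉ WK B (KK B) := by
    rintro ⟨x, hx, hx1, hx2⟩
    exact hcon x hx1 (KK_norm hx hx1) hx2
  -- compactness of the numerical range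
  have hcpt : IsCompact (WK B (KK B)) := by
    have h1 : WK B (KK B) = (fun x : E => (inner ℂ x (B x) : ℂ)) '' (sphere (0 : E) 1 ∩ (KK B : Set E)) := by
      ext w
      constructor
      · rintro ⟨x, hx, hx1, hw⟩
        exact ⟨x, ⟨by simpa using hx1, hx⟩, hw⟩
      · rintro ⟨x, ⟨hx1, hx⟩, hw⟩
        exact ⟨x, hx, by simpa using hx1, hw⟩
    rw [h1]
    apply IsCompact.image
    · exact (isCompact_sphere 0 1).inter_right (Submodule.closed_of_finiteDimensional _)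
    · fun_prop
  obtain ⟨f, u, hf0, hf1⟩ := geometric_hahn_banach_point_closed (WK_convex B (KK B)) hcpt.isClosed h0
  rw [map_zero] at hf0
  -- the functional is `w ↦ Re (conj c * w)`
  obtain ⟨c, hc⟩ : ∃ c : ℂ, c = ⟨f 1, f Complex.I⟩ := ⟨_, rfl⟩
  have hfc : ∀ w : ℂ, f w = (conj c * w).re := by
    intro w
    have h1 : f w = w.re * f 1 + w.im * f Complex.I := by
      conv_lhs => rw [← Complex.re_add_im w]
      rw [map_add]
      congr 1
      · rw [show ((w.re : ℝ) : ℂ) = w.re • (1 : ℂ) by simp, map_smul, smul_eq_mul]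
      · rw [show ((w.im : ℝ) : ℂ) * Complex.I = w.im • Complex.I by simp, map_smul, smul_eq_mul]
    rw [h1, hc]
    simp only [Complex.mul_re, Complex.conj_re, Complex.conj_im]
    ring
  -- the perturbations
  have hpt : ∀ k : ℕ, ∃ x : E, ‖x‖ = 1 ∧
      ‖(B - (((1 / ((k : ℝ) + 1) : ℝ) : ℂ) * c) • (1 : E →L[ℂ] E)) x‖ =
        ‖B - (((1 / ((k : ℝ) + 1) : ℝ) : ℂ) * c) • (1 : E →L[ℂ] E)‖ := fun k => attain _
  choose x hx1 hx2 using hpt
  have hest : ∀ k : ℕ, ‖B‖ ^ 2 + 2 * (1 / ((k : ℝ) + 1)) * f (inner ℂ (x k) (B (x k))) ≤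
      ‖B (x k)‖ ^ 2 + (1 / ((k : ℝ) + 1)) ^ 2 * ‖c‖ ^ 2 := by
    intro k
    have h1 : ‖B‖ ^ 2 ≤ ‖(B - (((1 / ((k : ℝ) + 1) : ℝ) : ℂ) * c) • (1 : E →L[ℂ] E)) (x k)‖ ^ 2 := by
      rw [hx2 k]
      exact pow_le_pow_left₀ (norm_nonneg _) (hmin _) 2
    have h2 : (B - (((1 / ((k : ℝ) + 1) : ℝ) : ℂ) * c) • (1 : E →L[ℂ] E)) (x k) =
        B (x k) - (((1 / ((k : ℝ) + 1) : ℝ) : ℂ) * c) • x k := by
      simp
    rw [h2, @norm_sub_sq ℂ E _ _ _ (B (x k)), inner_smul_right, norm_smul, hx1 k, mul_one, norm_mul, Complex.norm_real,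
      mul_pow, Real.norm_of_nonneg (by positivity)] at h1
    have h3 : RCLike.re (((1 / ((k : ℝ) + 1) : ℝ) : ℂ) * c * inner ℂ (B (x k)) (x k)) =
        (1 / ((k : ℝ) + 1)) * f (inner ℂ (x k) (B (x k))) := by
      rw [hfc, ← inner_conj_symm (B (x k)) (x k), mul_assoc]
      show (((1 / ((k : ℝ) + 1) : ℝ) : ℂ) * (c * conj (inner ℂ (x k) (B (x k)) : ℂ))).re = _
      rw [Complex.re_ofReal_mul]
      congr 1
      rw [← Complex.conj_re, map_mul, Complex.conj_conj]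
    rw [h3] at h1
    linarith
  obtain ⟨y, hy, φ, hφ, hlim⟩ := (isCompact_sphere (0 : E) 1).tendsto_subseq
    (x := x) (fun k => by simpa using hx1 k)
  have hy1 : ‖y‖ = 1 := by simpa using hy
  have hBle : ∀ z : E, ‖z‖ = 1 → ‖B z‖ ≤ ‖B‖ := fun z hz => by
    have := B.le_opNorm z
    rwa [hz, mul_one] at this
  have heps : Tendsto (fun k : ℕ => 1 / (((φ k : ℕ) : ℝ) + 1)) atTop (𝓝 0) :=
    tendsto_one_div_add_atTop_nhds_zero_nat.comp hφ.tendsto_atTop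
  have hlimB : Tendsto (fun k => ‖B (x (φ k))‖ ^ 2) atTop (𝓝 (‖B y‖ ^ 2)) := by
    have : Continuous fun z : E => ‖B z‖ ^ 2 := by fun_prop
    exact (this.tendsto y).comp hlim
  have hlimf : Tendsto (fun k => f (inner ℂ (x (φ k)) (B (x (φ k))))) atTop
      (𝓝 (f (inner ℂ y (B y)))) := by
    have : Continuous fun z : E => f (inner ℂ z (B z)) := by fun_prop
    exact (this.tendsto y).comp hlim
  have hyn : ‖B y‖ = ‖B‖ := by
    refine le_antisymm (hBle y hy1) ?_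
    have h1 : Tendsto (fun k => ‖B‖ ^ 2 + 2 * (1 / (((φ k : ℕ) : ℝ) + 1)) *
        f (inner ℂ (x (φ k)) (B (x (φ k))))) atTop (𝓝 (‖B‖ ^ 2 + 2 * 0 * f (inner ℂ y (B y)))) :=
      tendsto_const_nhds.add ((tendsto_const_nhds.mul heps).mul hlimf)
    have h2 : Tendsto (fun k => ‖B (x (φ k))‖ ^ 2 + (1 / (((φ k : ℕ) : ℝ) + 1)) ^ 2 * ‖c‖ ^ 2) atTop
        (𝓝 (‖B y‖ ^ 2 + 0 ^ 2 * ‖c‖ ^ 2)) :=
      hlimB.add ((heps.pow 2).mul tendsto_const_nhds)
    have h3 := le_of_tendsto_of_tendsto' h1 h2 (fun k => hest (φ k))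
    have h4 : ‖B‖ ^ 2 ≤ ‖B y‖ ^ 2 := by simpa using h3
    exact (sq_le_sq₀ (norm_nonneg _) (norm_nonneg _)).1 h4
  have hle : f (inner ℂ y (B y)) ≤ 0 := by
    have h2 : Tendsto (fun k => (1 / (((φ k : ℕ) : ℝ) + 1)) * ‖c‖ ^ 2) atTop (𝓝 (0 * ‖c‖ ^ 2)) :=
      heps.mul tendsto_const_nhds
    have h1 : Tendsto (fun k => 2 * f (inner ℂ (x (φ k)) (B (x (φ k))))) atTop
        (𝓝 (2 * f (inner ℂ y (B y)))) := tendsto_const_nhds.mul hlimf
    have h3 := le_of_tendsto_of_tendsto' h1 h2 (fun k => by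
      have h4 := hest (φ k)
      have h5 : ‖B (x (φ k))‖ ^ 2 ≤ ‖B‖ ^ 2 :=
        pow_le_pow_left₀ (norm_nonneg _) (hBle _ (hx1 _)) 2
      have h6 : (0 : ℝ) < 1 / (((φ k : ℕ) : ℝ) + 1) := by positivity
      set ε := 1 / (((φ k : ℕ) : ℝ) + 1)
      have h7 : ε * (2 * f (inner ℂ (x (φ k)) (B (x (φ k))))) ≤ ε * (ε * ‖c‖ ^ 2) := by nlinarith
      exact le_of_mul_le_mul_left h7 h6)
    rw [zero_mul] at h3
    linarith
  have hmem : inner ℂ y (B y) ∈ WK B (KK B) := ⟨y, KK_of_norm hy1 hyn, hy1, rfl⟩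
  have := hf1 _ hmem
  linarith

end Pool.Agent.W2helper50.CZ
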